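import Pool.Agent.P.MP_7cb106_nt.Ty.Defs

/-! Definitions: block scalars, equivariant maps, covers. -/

set_option autoImplicit false

namespace Pool.Agent.P.MP_7cb106_nt.Cv

open Pool.Agent.P.MP_7cb106_nt.Ty

variable {R I B U V : Type} [CommRing R] [Fintype I] [DecidableEq I] [AddCommGroup U] [Module ℂ U]
  [AddCommGroup V] [Module ℂ V] {J : Subgroup (GL I R)}

/-- The diagonal matrix with entry `ζ` on the block `j` and `1` elsewhere. -/
def zb [DecidableEq B] (b : I → B) (ζ : Rˣ) (j : B) : GL I R where
  val := Matrix.diagonal fun s => if b s = j then ζ.val else 1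
  inv := Matrix.diagonal fun s => if b s = j then ζ⁻¹.val else 1
  val_inv := by
    rw [Matrix.diagonal_mul_diagonal, ← Matrix.diagonal_one]
    exact congrArg _ (funext fun s => by split_ifs <;> simp)
  inv_val := by
    rw [Matrix.diagonal_mul_diagonal, ← Matrix.diagonal_one]
    exact congrArg _ (funext fun s => by split_ifs <;> simp)

/-- Linear maps that commute with `J ∩ A` and whose values are fixed by the matrices that agree
with the identity off the positions `S`. -/
def HomF (A : Subgroup (GL I R)) (S : I → I → Prop) (lam : Representation ℂ J U)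
    (σ : Representation ℂ (GL I R) V) : Submodule ℂ (U →ₗ[ℂ] V) where
  carrier := {f | (∀ h : J, h.val ∈ A → ∀ y, f (lam h y) = σ h (f y)) ∧
    ∀ g, Rad S g → ∀ y, σ g (f y) = f y}
  add_mem' := fun h h' => ⟨fun g hg y => by
    rw [LinearMap.add_apply, LinearMap.add_apply, map_add, h.1 g hg, h'.1 g hg], fun g hg y => by
    rw [LinearMap.add_apply, map_add, h.2 g hg, h'.2 g hg]⟩
  zero_mem' := ⟨fun _ _ _ => (map_zero _).symm, fun _ _ _ => map_zero _⟩
  smul_mem' := fun c f h => ⟨fun g hg y => by
    rw [LinearMap.smul_apply, LinearMap.smul_apply, map_smul, h.1 g hg], fun g hg y => by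
    rw [LinearMap.smul_apply, map_smul, h.2 g hg]⟩

/-- The kernel of the Jacquet map to the coinvariants. -/
def JacKer (S : I → I → Prop) (σ : Representation ℂ (GL I R) V) : Submodule ℂ V :=
  Submodule.span ℂ {x | ∃ g w, Rad S g ∧ x = σ g w - w}

/-- The restriction of `lam` to `H` is a cover: for every parabolic subgroup whose Levi subgroup
contains the block diagonal matrices, `H` has an Iwahori decomposition, `lam` is trivial on the
unipotent parts, and the Jacquet map is injective on maps from `lam`. -/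
def Cover (b : I → B) (H : Subgroup (GL I R)) (lam : Representation ℂ J U) : Prop :=
  ∀ o : B → ℤ,
    (∀ h ∈ H, ∃ u ∈ H, ∃ m ∈ H, ∃ v ∈ H, Rad (fun s t => o (b s) < o (b t)) u ∧
      m ∈ Levi R (o ∘ b) ∧ Rad (fun s t => o (b t) < o (b s)) v ∧ h = u * m * v) ∧
    (∀ u : J, u.val ∈ H → Rad (fun s t => o (b s) < o (b t)) u.val → lam u = 1) ∧
    ∀ (W : Type) [AddCommGroup W] [Module ℂ W] (τ : Representation ℂ (GL I R) W) (f : U →ₗ[ℂ] W),
      (∀ h : J, h.val ∈ H → ∀ y, f (lam h y) = τ h (f y)) →
      (∀ y, f y ∈ JacKer (fun s t => o (b s) < o (b t)) τ) → f = 0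

end Pool.Agent.P.MP_7cb106_nt.Cv
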