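import Pool.Agent.P.MP_7cb106_nt.Ty.Chr

/-! Finite groups: averages, fixed point free elements, class sums over cosets, covers. -/

set_option autoImplicit false
set_option linter.unusedSectionVars false

namespace Pool.Agent.P.MP_7cb106_nt.Cv

open Module Finset Pool.Agent.P.MP_7cb106_nt.Ty
open scoped Classical

variable {G U V : Type} [Group G] [Fintype G] [AddCommGroup U] [Module ℂ U] [AddCommGroup V]
  [Module ℂ V]

lemma split' (D : Subgroup G) {x : G} (h1 : ∀ h ∈ D, x⁻¹ * h * x ∈ D)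
    (h2 : ∀ h ∈ D, h * x = x * h → h = 1) {h : G} (hh : h ∈ D) :
    ∃ k ∈ D, k * x * k⁻¹ = x * h := by
  let f : D → D := fun k => ⟨x⁻¹ * k * x * (k : G)⁻¹, D.mul_mem (h1 _ k.2) (D.inv_mem k.2)⟩
  have hf : Function.Injective f := fun k l e => by
    have e1 : x⁻¹ * k * x * (k : G)⁻¹ = x⁻¹ * l * x * (l : G)⁻¹ := congrArg Subtype.val e
    have := h2 ((l : G)⁻¹ * k) (D.mul_mem (D.inv_mem l.2) k.2) (by
      calc (l : G)⁻¹ * k * x = (l : G)⁻¹ * x * (x⁻¹ * k * x * (k : G)⁻¹) * k := by group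
        _ = _ := by rw [e1]; group)
    exact Subtype.ext (inv_mul_eq_one.1 this).symm
  obtain ⟨k, hk⟩ := Finite.injective_iff_surjective.1 hf ⟨h, hh⟩
  exact ⟨k, k.2, by rw [← show x⁻¹ * k * x * (k : G)⁻¹ = h from congrArg Subtype.val hk]; group⟩

/-- An element of `c Γ` has no fixed point on `A` if `c` has none. -/
lemma fpf {p : ℕ} (hp : p.Prime) {Γ A : Subgroup G} (hΓ : IsPGroup p Γ) (hA : A ≤ Γ) {c : G}
    (hc : c ∈ Subgroup.normalizer (Γ : Set G)) (hcA : ∀ a ∈ A, c * a * c⁻¹ ∈ A)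
    (hn : ∀ g ∈ Γ, ∀ a ∈ A, g * a * g⁻¹ ∈ A) (h0 : ∀ a ∈ A, c * a = a * c → a = 1) {h a : G}
    (hh : h ∈ Γ) (ha : a ∈ A) (e : c * h * a = a * (c * h)) : a = 1 := by
  have := Fact.mk hp
  obtain ⟨n, hn'⟩ := (Subgroup.isNilpotent_iff_lowerCentralSeries Γ).1 hΓ.isNilpotent
  have hγ : ∀ i, ∀ g ∈ Γ.lowerCentralSeries i, c * g * c⁻¹ ∈ Γ.lowerCentralSeries i := by
    intro i g hg
    have h1 := Subgroup.map_lowerCentralSeries Γ (MulAut.conj c).toMonoidHom i
    rw [show Γ.map (MulAut.conj c).toMonoidHom = Γ from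
      Subgroup.mem_normalizer_iff_map_conj_eq.1 hc] at h1
    rw [← h1]
    exact ⟨g, hg, rfl⟩
  suffices ∀ i, a ∈ Γ.lowerCentralSeries i by simpa [hn'] using this n
  intro i
  induction i with
  | zero => exact hA ha
  | succ i ih =>
    let B := A ⊓ Γ.lowerCentralSeries (i + 1)
    have h1 : a * h * a⁻¹ * h⁻¹ ∈ B := ⟨show _ ∈ A by
      simpa only [mul_assoc] using A.mul_mem ha (hn h hh _ (A.inv_mem ha)),
      Subgroup.commutator_mem_commutator ih hh⟩
    have h2 : ∀ b ∈ B, c * b * c⁻¹ ∈ B := fun b hb => ⟨hcA b hb.1, hγ _ b hb.2⟩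
    obtain ⟨k, hk, e1⟩ := split' B (x := c⁻¹) (by simpa using h2) (fun b hb e => h0 b hb.1 (by
      calc c * b = c * (b * c⁻¹) * c := by group
        _ = _ := by rw [e]; group)) (h2 _ h1)
    have e2 : c * (h * a * h⁻¹) * c⁻¹ = a := by
      calc _ = c * h * a * (c * h)⁻¹ := by group
        _ = a := by rw [e]; group
    have e3 : k⁻¹ * a = 1 := h0 _ (A.mul_mem (A.inv_mem hk.1) ha) (by
      have e4 : c * k * c⁻¹ * k⁻¹ = c * a * c⁻¹ * a⁻¹ := by
        calc _ = c * (k * c⁻¹ * k⁻¹) := by group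
          _ = c * a * c⁻¹ * (c * (h * a * h⁻¹) * c⁻¹)⁻¹ := by rw [e1]; group
          _ = _ := by rw [e2]
      calc c * (k⁻¹ * a) = c * k⁻¹ * c⁻¹ * (c * a * c⁻¹ * a⁻¹) * a * c := by group
        _ = _ := by rw [← e4]; group)
    rw [← inv_mul_eq_one.1 e3]
    exact hk.2

/-- Class sums over a coset. -/
lemma avg_eq {A A' : Subgroup G} (hA : A' ≤ A) {c : G} (hc : ∀ k ∈ A, c⁻¹ * k * c ∈ A)
    (hi : ∀ k ∈ A, ∀ h ∈ A', ∀ h' ∈ A', c * h * k = k * (c * h') → k ∈ A') (F : G → ℂ)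
    (hF : ∀ k ∈ A, ∀ h ∈ A, F (c⁻¹ * k * c * h * k⁻¹) = F h) :
    (Fintype.card A : ℂ)⁻¹ * ∑ h : A, F h = (Fintype.card A' : ℂ)⁻¹ * ∑ h : A', F h := by
  let θ : (A ⧸ A'.subgroupOf A) × A' → A := fun x =>
    ⟨c⁻¹ * x.1.out * c * x.2 * (x.1.out : G)⁻¹,
      A.mul_mem (A.mul_mem (hc _ x.1.out.2) (hA x.2.2)) (A.inv_mem x.1.out.2)⟩
  have h1 : Fintype.card A = Fintype.card (A ⧸ A'.subgroupOf A) * Fintype.card A' := by
    simp only [← Nat.card_eq_fintype_card]
    rw [Subgroup.card_eq_card_quotient_mul_card_subgroup (A'.subgroupOf A),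
      Nat.card_congr (Subgroup.subgroupOfEquivOfLe hA).toEquiv]
  have h2 : Function.Bijective θ := (Fintype.bijective_iff_injective_and_card _).2
    ⟨fun x y e => by
      have e1 : c⁻¹ * x.1.out * c * x.2 * (x.1.out : G)⁻¹ =
        c⁻¹ * y.1.out * c * y.2 * (y.1.out : G)⁻¹ := congrArg Subtype.val e
      have e2 : x.1 = y.1 := by
        rw [← x.1.out_eq, ← y.1.out_eq]
        refine QuotientGroup.eq.2 (hi _ (x.1.out⁻¹ * y.1.out).2 _ x.2.2 _ y.2.2 ?_)
        show c * x.2 * ((x.1.out : G)⁻¹ * y.1.out) = (x.1.out : G)⁻¹ * y.1.out * (c * y.2)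
        calc _ = (x.1.out : G)⁻¹ * c * (c⁻¹ * x.1.out * c * x.2 * (x.1.out : G)⁻¹) * y.1.out := by
              group
          _ = _ := by rw [e1]; group
      rw [e2] at e1
      exact Prod.ext e2 (Subtype.ext (mul_left_cancel (mul_right_cancel e1))),
    by rw [Fintype.card_prod, h1]⟩
  rw [← h2.sum_comp fun h : A => F h, Fintype.sum_prod_type,
    sum_congr rfl (g := fun _ => ∑ h : A', F h) fun q _ => sum_congr rfl fun h _ =>
      hF _ q.out.2 _ (hA h.2), sum_const, card_univ,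
    nsmul_eq_mul, h1, Nat.cast_mul, mul_inv, mul_mul_mul_comm, inv_mul_cancel₀, one_mul]
  exact Nat.cast_ne_zero.2 Fintype.card_ne_zero

/-- The average over a subgroup. -/
noncomputable def av (σ : Representation ℂ G V) (N : Subgroup G) : V →ₗ[ℂ] V :=
  (Fintype.card N : ℂ)⁻¹ • ∑ g : N, σ g

variable {σ : Representation ℂ G V} {N D N' : Subgroup G} {g : G} {v : V}

lemma av_apply (v : V) : av σ N v = (Fintype.card N : ℂ)⁻¹ • ∑ g : N, σ g v := by simp [av]

lemma av_fix (hg : g ∈ N) (v : V) : σ g (av σ N v) = av σ N v := by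
  rw [av_apply, map_smul, map_sum]
  exact congrArg _ (Fintype.sum_equiv (Equiv.mulLeft ⟨g, hg⟩) _ _ fun h => by simp)

lemma av_right (hg : g ∈ N) (v : V) : av σ N (σ g v) = av σ N v := by
  rw [av_apply, av_apply]
  exact congrArg _ (Fintype.sum_equiv (Equiv.mulRight ⟨g, hg⟩) _ _ fun h => by simp)

lemma av_id (h : ∀ g ∈ N, σ g v = v) : av σ N v = v := by
  rw [av_apply, sum_congr rfl fun (g : N) _ => h g g.2, sum_const, card_univ,
    ← Nat.cast_smul_eq_nsmul ℂ, inv_smul_smul₀ card_ne]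

lemma av_comm (hg : g ∈ Subgroup.normalizer (N : Set G)) (v : V) :
    σ g (av σ N v) = av σ N (σ g v) := by
  rw [av_apply, av_apply, map_smul, map_sum]
  refine congrArg _ (Fintype.sum_equiv (N.normalizerMonoidHom ⟨g, hg⟩).toEquiv _ _ fun h => ?_)
  show _ = σ (g * h * g⁻¹) (σ g v)
  simp [← Module.End.mul_apply, ← map_mul]

lemma av_av (h : D ≤ N) (v : V) : av σ N (av σ D v) = av σ N v := by
  rw [av_apply (N := D), map_smul, map_sum, sum_congr rfl fun g _ => av_right (h g.2) v, sum_const,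
    card_univ, ← Nat.cast_smul_eq_nsmul ℂ, inv_smul_smul₀ card_ne]

lemma av_mul (h : D ≤ N') (h' : N ≤ N') (hn : D ≤ Subgroup.normalizer (N : Set G))
    (hf : ∀ g ∈ N', ∃ d ∈ D, d⁻¹ * g ∈ N) (v : V) : av σ N' v = av σ D (av σ N v) := by
  rw [← av_av h', ← av_av h]
  refine av_id fun g hg => ?_
  obtain ⟨d, hd, e⟩ := hf g hg
  have : σ (d⁻¹ * g) (av σ D (av σ N v)) = av σ D (av σ N v) := by
    rw [av_apply (N := D), map_smul, map_sum]
    exact congrArg _ (sum_congr rfl fun k _ => by rw [av_comm (hn k.2), av_fix e])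
  rw [← mul_inv_cancel_left d g, map_mul, Module.End.mul_apply, this, av_fix hd]

lemma av_split [FiniteDimensional ℂ V] (E : V →ₗ[ℂ] V) (hE : ∀ k ∈ D, σ k * E = E * σ k) {x : G}
    (h1 : ∀ h ∈ D, x⁻¹ * h * x ∈ D) (h2 : ∀ h ∈ D, h * x = x * h → h = 1) :
    LinearMap.trace ℂ V (σ x * (av σ D * E)) = LinearMap.trace ℂ V (σ x * E) := by
  have h3 : ∀ h : D, LinearMap.trace ℂ V (σ x * (σ h * E)) = LinearMap.trace ℂ V (σ x * E) := by
    intro h
    obtain ⟨k, hk, e⟩ := split' D h1 h2 h.2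
    rw [← mul_assoc, ← map_mul, ← e, map_mul σ, mul_assoc, hE _ (D.inv_mem hk), ← mul_assoc,
      LinearMap.trace_mul_comm, ← mul_assoc, ← map_mul, inv_mul_cancel_left]
  simp only [av, smul_mul_assoc, mul_smul_comm, sum_mul, mul_sum, map_smul, map_sum, h3, sum_const,
    card_univ, nsmul_eq_mul, smul_eq_mul]
  exact inv_mul_cancel_left₀ card_ne _

/-- Left and right multiplication on the space of linear maps. -/
def lr (a : V →ₗ[ℂ] V) (b : U →ₗ[ℂ] U) : Module.End ℂ (U →ₗ[ℂ] V) :=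
  LinearMap.llcomp ℂ U V V a ∘ₗ LinearMap.lcomp ℂ V b

lemma lr_apply (a : V →ₗ[ℂ] V) (b : U →ₗ[ℂ] U) (f : U →ₗ[ℂ] V) (y : U) :
    lr a b f y = a (f (b y)) := rfl

lemma trace_lr [FiniteDimensional ℂ U] [FiniteDimensional ℂ V] (a : V →ₗ[ℂ] V) (b : U →ₗ[ℂ] U) :
    LinearMap.trace ℂ _ (lr a b) = LinearMap.trace ℂ V a * LinearMap.trace ℂ U b := by
  have h : lr a b = (dualTensorHomEquiv ℂ U V).conj
      (TensorProduct.map (Module.Dual.transpose (R := ℂ) b) a) := by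
    rw [LinearEquiv.conj_apply, LinearEquiv.eq_comp_toLinearMap_symm]
    ext f v y
    simp [lr_apply, dualTensorHomEquiv, Module.Dual.transpose_apply]
  rw [h, LinearMap.trace_conj', LinearMap.trace_tensorProduct', LinearMap.trace_transpose',
    mul_comm]

/-- Right translation on functions. -/
def rt (G V : Type) [Group G] [AddCommGroup V] [Module ℂ V] : Representation ℂ G (G → V) where
  toFun g := LinearMap.funLeft ℂ V (· * g)
  map_one' := by ext; simp
  map_mul' g h := by ext; simp [mul_assoc]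

/-- Transitivity of covers. -/
lemma inj_levi {J H Q : Subgroup G} (lam : Representation ℂ J U) (f : U →ₗ[ℂ] V)
    (hD : ∀ g, g ∈ D ↔ g ∈ N' ∧ g ∈ Q)
    (hd : ∀ h : J, h.val ∈ H → ∃ q v : J, h = q * v ∧ q.val ∈ Q ∧ v.val ∈ N' ∧
      (v.val ∈ Q → v = 1) ∧ lam v = 1 ∧ ∀ y, f (lam q y) = σ q (f y))
    (h0 : ∀ y, av σ D (f y) = 0)
    (hI : ∀ F : U →ₗ[ℂ] G → V, (∀ h : J, h.val ∈ H → ∀ y, F (lam h y) = rt G V h (F y)) →
      (∀ y, av (rt G V) N' (F y) = 0) → F = 0) : f = 0 := by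
  let F : U →ₗ[ℂ] G → V := LinearMap.pi fun x =>
    ∑ h : J, if h.val ∈ H ∧ x * h.val⁻¹ ∈ Q then σ (x * h.val⁻¹) ∘ₗ f ∘ₗ lam h else 0
  have hF : ∀ y x, F y x =
      ∑ h : J, if h.val ∈ H ∧ x * h.val⁻¹ ∈ Q then σ (x * h.val⁻¹) (f (lam h y)) else 0 := by
    intro y x
    simp only [F, LinearMap.pi_apply, LinearMap.sum_apply]
    exact sum_congr rfl fun h _ => by split_ifs <;> rfl
  have hq : ∀ y, ∀ q ∈ Q, ∀ x, F y (q * x) = σ q (F y x) := fun y q hq x => by
    rw [hF, hF, map_sum]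
    refine sum_congr rfl fun h _ => ?_
    rw [mul_assoc, Q.mul_mem_cancel_left hq]
    split_ifs <;> simp
  have h1 : F = 0 := hI F (fun k hk y => funext fun x => by
    show _ = F y (x * k)
    rw [hF, hF]
    refine Fintype.sum_equiv (Equiv.mulRight k) _ _ fun h => ?_
    simp [H.mul_mem_cancel_right hk, mul_assoc]) fun y => by
    let T : G → V := fun x => ∑ n : N', F y (x * n)
    have t1 : ∀ x, ∀ n ∈ N', T (x * n) = T x := fun x n hn =>
      Fintype.sum_equiv (Equiv.mulLeft ⟨n, hn⟩) _ _ fun h => by simp [mul_assoc]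
    have t2 : ∀ q ∈ Q, T q = σ q (T 1) := fun q h => by
      simp only [T, map_sum, one_mul, hq y q h]
    have t3 : T 1 = 0 := by
      rw [← av_id (σ := σ) (N := D) (v := T 1) fun d hd' => by
        rw [← t2 d ((hD d).1 hd').2, ← t1 1 d ((hD d).1 hd').1, one_mul]]
      simp only [T, hF, map_sum, one_mul]
      refine sum_eq_zero fun n _ => sum_eq_zero fun h _ => ?_
      split_ifs with e
      · obtain ⟨q, v, rfl, a1, a2, -, a4, a5⟩ := hd h e.1
        have a6 : n * v.val⁻¹ ∈ D := (hD _).2 ⟨N'.mul_mem n.2 (N'.inv_mem a2), by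
          simpa [mul_assoc] using Q.mul_mem e.2 a1⟩
        rw [map_mul lam, a4, mul_one, a5, ← Module.End.mul_apply (σ _), ← map_mul]
        simpa [mul_assoc, h0] using av_right (σ := σ) a6 (f y)
      · exact map_zero _
    ext x
    rw [av_apply, Pi.smul_apply, Finset.sum_apply]
    refine smul_eq_zero_of_right _ (show T x = 0 from ?_)
    by_contra hx
    obtain ⟨n, -, hn⟩ := exists_ne_zero_of_sum_ne_zero hx
    rw [hF] at hn
    obtain ⟨h, -, hh⟩ := exists_ne_zero_of_sum_ne_zero hn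
    have e := (ite_ne_right_iff.1 hh).1
    obtain ⟨q, v, rfl, a1, a2, -⟩ := hd h e.1
    have a3 := t1 (x * n * (q * v).val⁻¹ * q) _ (N'.mul_mem a2 (N'.inv_mem n.2))
    rw [t2 _ (Q.mul_mem e.2 a1), t3, map_zero] at a3
    exact hx (by simpa [mul_assoc] using a3)
  ext y
  have h2 := hF y 1
  rw [h1, sum_congr rfl (g := fun h : J => if h.val ∈ H ∧ 1 * h.val⁻¹ ∈ Q then f y else 0)
    fun h _ => ?_, ← sum_filter, sum_const, ← Nat.cast_smul_eq_nsmul ℂ] at h2
  · refine (smul_eq_zero.1 h2.symm).resolve_left (Nat.cast_ne_zero.2 (card_ne_zero_of_mem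
      (a := 1) ?_))
    simp
  · split_ifs with e
    · obtain ⟨q, v, rfl, a1, -, a3, -, a5⟩ := hd h e.1
      obtain rfl := a3 (by simpa using Q.inv_mem (Q.mul_mem e.2 a1))
      simp [a5, ← Module.End.mul_apply, ← map_mul]
    · rfl

end Pool.Agent.P.MP_7cb106_nt.Cv
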