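import Pool.Agent.P.MP_7cb106_nt.Cv.Mat

/-! Representations on whose Jacquet module the sum of the block scalars is a scalar. -/

set_option autoImplicit false
set_option linter.unusedSectionVars false

namespace Pool.Agent.P.MP_7cb106_nt.Cv

open Module Finset Pool.Agent.P.MP_7cb106_nt.Ty
open LinearMap (trace)
open scoped Classical

variable {R I U V : Type} [CommRing R] [Fintype I] [DecidableEq I] [Fintype (GL I R)]
  [AddCommGroup U] [Module ℂ U] [FiniteDimensional ℂ U] [AddCommGroup V] [Module ℂ V]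
  [FiniteDimensional ℂ V] {r p : ℕ} {b : I → Fin r} {J : Subgroup (GL I R)}

section

variable (H : Subgroup (GL I R)) (lam : Representation ℂ J U) (σ : Representation ℂ (GL I R) V)
  (o : I → ℤ)

/-- The intermediate spaces. -/
def XX : Submodule ℂ (U →ₗ[ℂ] V) := HomF (H ⊓ Levi R o) (fun s t => o s < o t) lam σ

/-- The projection onto `XX`. -/
noncomputable def pr : Module.End ℂ (U →ₗ[ℂ] V) :=
  av (lam.linHom (σ.comp J.subtype)) ((H ⊓ Levi R o).subgroupOf J) * lr (av σ (Nn R o)) 1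

/-- The trace of `c` on `XX`. -/
noncomputable def tau (c : GL I R) : ℂ := trace ℂ _ (lr (σ c) 1 * pr H lam σ o)

lemma isProj : LinearMap.IsProj (XX H lam σ o) (pr H lam σ o) where
  map_mem f := ⟨fun h hh y => by
      have := LinearMap.congr_fun (av_fix (σ := lam.linHom (σ.comp J.subtype))
        (N := (H ⊓ Levi R o).subgroupOf J) hh (lr (av σ (Nn R o)) 1 f)) (lam h y)
      simpa [← Module.End.mul_apply (lam _), ← map_mul, pr] using this.symm,
    fun g hg y => by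
      simp only [pr, Module.End.mul_apply, av_apply (N := (H ⊓ Levi R o).subgroupOf J),
        LinearMap.smul_apply, LinearMap.sum_apply, map_smul, map_sum]
      refine congrArg _ (sum_congr rfl fun h _ => ?_)
      show σ g (σ h (av σ (Nn R o) _)) = σ h (av σ (Nn R o) _)
      rw [av_comm (g := h.val.val) (levi_nrm (fun _ _ => id) h.2.2), av_fix hg]⟩
  map_id f hf := by
    have h1 : lr (av σ (Nn R o)) 1 f = f := LinearMap.ext fun y => av_id fun g hg => hf.2 g hg y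
    rw [pr, Module.End.mul_apply, h1]
    refine av_id fun h hh => LinearMap.ext fun y => ?_
    show σ h (f (lam h⁻¹ y)) = f y
    rw [← hf.1 h hh, ← Module.End.mul_apply, ← map_mul, mul_inv_cancel, map_one,
      Module.End.one_apply]

lemma tau_one : tau H lam σ o 1 = finrank ℂ (XX H lam σ o) := by
  rw [← (isProj H lam σ o).trace, tau, map_one]
  rfl

lemma tau_eq (c : GL I R) : tau H lam σ o c =
    (Fintype.card ((H ⊓ Levi R o).subgroupOf J) : ℂ)⁻¹ * ∑ h : (H ⊓ Levi R o).subgroupOf J,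
      trace ℂ V (σ (c * h.val) * av σ (Nn R o)) * trace ℂ U (lam h.val⁻¹) := by
  simp only [← trace_lr]
  rw [← map_sum, ← smul_eq_mul, ← map_smul]
  refine congrArg _ (LinearMap.ext fun f => LinearMap.ext fun y => ?_)
  simp [pr, av_apply (N := (H ⊓ Levi R o).subgroupOf J), lr_apply]

end

variable {H : Subgroup (GL I R)} {lam : Representation ℂ J U} {σ : Representation ℂ (GL I R) V}

variable (p b H lam) in
/-- The standing hypotheses. -/
structure Hyp : Prop where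
  hp : p.Prime
  hR : IsNilpotent (p : R)
  hH : H ≤ J
  hN : J ≤ Subgroup.normalizer (H : Set (GL I R))
  hP : IsPGroup p H
  hc : Cover b H lam

/-- The keys of the chain of Levi subgroups. -/
def ky (r t : ℕ) (j : Fin r) : ℤ := min (j.val : ℤ) t

namespace Hyp

variable (y : Hyp p b H lam)
include y

lemma dec (o : Fin r → ℤ) {k : J} (hk : k.val ∈ H) : ∃ u m v : J, k = u * m * v ∧ u.val ∈ H ∧
    m.val ∈ H ∧ v.val ∈ H ∧ u.val ∈ Nn R (o ∘ b) ∧ m.val ∈ Levi R (o ∘ b) ∧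
    v.val ∈ Nn R (-(o ∘ b)) := by
  obtain ⟨u, hu, m, hm, v, hv, a1, a2, a3, e⟩ := (y.hc o).1 k hk
  exact ⟨⟨u, y.hH hu⟩, ⟨m, y.hH hm⟩, ⟨v, y.hH hv⟩, Subtype.ext e, hu, hm, hv, a1, a2,
    rad_mono a3 fun s t a => neg_lt_neg a⟩

lemma triv (o : Fin r → ℤ) {u : J} (hu : u.val ∈ H) (h : u.val ∈ Nn R (o ∘ b)) : lam u = 1 :=
  (y.hc o).2.1 u hu h

lemma conj (c : J) {k : GL I R} (hk : k ∈ H) : c.val⁻¹ * k * c ∈ H :=
  (Subgroup.mem_normalizer_iff''.1 (y.hN c.2) k).1 hk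

lemma lam_conj {c : J} {d : I → R} (hc : c.val.val = Matrix.diagonal d)
    (hd : ∀ s t, b s = b t → d s = d t) {k : J} (hk : k.val ∈ H) : lam (c⁻¹ * k * c) = lam k := by
  obtain ⟨u, m, v, rfl, h1, -, h3, a1, a2, a3⟩ := y.dec (fun j => j.val) hk
  have e : c * m = m * c := Subtype.ext (dg_cm hc
    (fun s t a => hd s t (Fin.ext (Nat.cast_injective (R := ℤ) a))) a2)
  have l : ∀ o : Fin r → ℤ, ∀ u : J, u.val ∈ H → u.val ∈ Nn R (o ∘ b) → lam (c⁻¹ * u * c) = 1 :=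
    fun o u hu a => y.triv o (y.conj c hu) (by
      simpa using levi_conj (inv_mem (dg_levi hc)) a)
  rw [show c⁻¹ * (u * m * v) * c = c⁻¹ * u * c * m * (c⁻¹ * v * c) by
    rw [mul_assoc _ c m, e]; group, map_mul, map_mul, map_mul lam (u * m), map_mul lam u,
    l _ u h1 a1, l (-fun j : Fin r => (j.val : ℤ)) v h3 a3, y.triv _ h1 a1,
    y.triv (-fun j : Fin r => (j.val : ℤ)) h3 a3]

lemma step (t : Fin r) {c : J} {d : I → R} (hc : c.val.val = Matrix.diagonal d)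
    (hd : ∀ s s', b s = b s' → d s = d s')
    (hu : ∀ s s', b s = t → b s' ≠ t → IsUnit (d s - d s')) :
    tau H lam σ (ky r t ∘ b) c = tau H lam σ (ky r (t + 1) ∘ b) c := by
  let o : Fin r → ℤ := fun j => if j = t then 0 else 1
  have o1 : ∀ s s', (o ∘ b) s < (o ∘ b) s' ↔ b s = t ∧ b s' ≠ t := fun s s' => by
    simp only [o, Function.comp]; split_ifs <;> simp [*]
  have o2 : ∀ s s', (-(o ∘ b)) s < (-(o ∘ b)) s' ↔ b s' = t ∧ b s ≠ t := fun s s' =>
    neg_lt_neg_iff.trans (o1 _ _)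
  have l1 : Levi R (ky r (t + 1) ∘ b) ≤ Levi R (ky r t ∘ b) := fun g hg =>
    levi_rad.2 (rad_mono (levi_rad.1 hg) fun s s' a => by
      simp only [ky, Function.comp] at a ⊢; omega)
  have l2 : Levi R (ky r (t + 1) ∘ b) ≤ Levi R (o ∘ b) := fun g hg =>
    levi_rad.2 (rad_mono (levi_rad.1 hg) fun s s' a => by
      simp only [ky, o, Function.comp, Fin.ext_iff] at a ⊢; split_ifs <;> omega)
  have f1 : ∀ h ∈ H, h ∈ Levi R (o ∘ b) → ∀ a ∈ Nn R (o ∘ b), c * h * a = a * (c * h) → a = 1 :=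
    fun h h1 h2 a => fpf_two y.hp y.hR y.hP (fun s u s' a a' => ((o1 _ _).1 a).2 ((o1 _ _).1 a').1)
      hc (fun s s' a => hu _ _ ((o1 _ _).1 a).1 ((o1 _ _).1 a).2) (y.hN c.2) h1 h2
  have f2 : ∀ h ∈ H, h ∈ Levi R (o ∘ b) → ∀ a ∈ Nn R (-(o ∘ b)),
      c * h * a = a * (c * h) → a = 1 :=
    fun h h1 h2 a => fpf_two y.hp y.hR y.hP (fun s u s' a a' => ((o2 _ _).1 a').2 ((o2 _ _).1 a).1)
      hc (fun s s' a => by simpa using (hu _ _ ((o2 _ _).1 a).1 ((o2 _ _).1 a).2).neg) (y.hN c.2) h1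
      fun s s' e => h2 s s' fun e' => e (congrArg Neg.neg e')
  have cm : ∀ k ∈ Levi R (ky r t ∘ b), σ k * av σ (Nn R (ky r t ∘ b)) =
      av σ (Nn R (ky r t ∘ b)) * σ k := fun k hk =>
    LinearMap.ext (av_comm (levi_nrm (fun _ _ => id) hk))
  rw [tau_eq, tau_eq, avg_eq (A := (H ⊓ Levi R (ky r t ∘ b)).subgroupOf J)
    (A' := (H ⊓ Levi R (ky r (t + 1) ∘ b)).subgroupOf J) (c := c)
    (fun g hg => ⟨hg.1, l1 hg.2⟩)
    (fun k hk => ⟨y.conj c hk.1, (Levi R _).mul_mem ((Levi R _).mul_mem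
      ((Levi R _).inv_mem (dg_levi hc)) hk.2) (dg_levi hc)⟩)
    (fun k hk h hh h' hh' e => ?_)
    (fun h => trace ℂ V (σ (c * h.val) * av σ (Nn R (ky r t ∘ b))) * trace ℂ U (lam h⁻¹))
    fun k hk h hh => ?_]
  · refine congrArg _ (sum_congr rfl fun h _ => congrArg (· * _) ?_)
    have l3 : c.val * h ∈ Levi R (ky r (t + 1) ∘ b) := mul_mem (dg_levi hc) h.2.2
    rw [show av σ (Nn R (ky r (t + 1) ∘ b)) = av σ (Dd R (ky r t ∘ b) (ky r (t + 1) ∘ b)) *
      av σ (Nn R (ky r t ∘ b)) from LinearMap.ext (av_factor σ (fun s s' a => by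
        simp only [ky, Function.comp] at a ⊢; omega) fun s s' a => by
        simp only [ky, Function.comp] at a ⊢; omega)]
    refine (av_split (D := Dd R (ky r t ∘ b) (ky r (t + 1) ∘ b)) _ (fun k hk => cm k hk.2)
      (fun a ha => ⟨?_, (Levi R _).mul_mem ((Levi R _).mul_mem ((Levi R _).inv_mem (l1 l3)) ha.2)
        (l1 l3)⟩) fun a ha e => f1 _ h.2.1 (l2 h.2.2) a ?_ e.symm).symm
    · exact show _ ∈ Nn R _ by simpa only [inv_inv] using levi_conj (inv_mem l3) ha.1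
    · refine rad_and ha.1 (levi_rad.1 ha.2) fun s s' a a' => (o1 _ _).2 ?_
      simp only [ky, Function.comp, Fin.ext_iff, Ne] at a a' ⊢
      omega
  · obtain ⟨u, m, v, rfl, -, -, -, a1, a2, a3⟩ := y.dec o hk.1
    obtain ⟨e1, e2⟩ := uniq (mul_mem (dg_levi hc) (l2 hh.2)) (mul_mem (dg_levi hc) (l2 hh'.2))
      a1 a2 a3 (congrArg Subtype.val e)
    obtain rfl : u = 1 := Subtype.ext (f1 _ hh.1 (l2 hh.2) _ a1 e1)
    obtain rfl : v = 1 := Subtype.ext (f2 _ hh'.1 (l2 hh'.2) _ a3 e2)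
    rw [one_mul, mul_one] at hk ⊢
    refine ⟨hk.1, levi_rad.2 (rad_and (levi_rad.1 a2) (levi_rad.1 hk.2) fun s s' a a' => ?_)⟩
    simp only [ky, o, Function.comp, Fin.ext_iff] at a a' ⊢
    split_ifs at a <;> omega
  · congr 1
    · rw [show c.val * (c⁻¹ * k * c * h * k⁻¹).val = k * (c * h) * k.val⁻¹ by simp [mul_assoc],
        map_mul σ, mul_assoc, cm k.val⁻¹ (inv_mem hk.2), ← mul_assoc, LinearMap.trace_mul_comm,
        ← mul_assoc, ← map_mul, inv_mul_cancel_left]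
    · rw [show (c⁻¹ * k * c * h * k⁻¹)⁻¹ = k * h⁻¹ * (c⁻¹ * k⁻¹ * c) by group, map_mul,
        y.lam_conj hc hd (k := k⁻¹) (inv_mem hk.1), ← map_mul]
      exact lam.char_conj h⁻¹ k

lemma inj (t : ℕ) {f : U →ₗ[ℂ] V} (hf : f ∈ XX H lam σ (ky r t ∘ b))
    (h0 : ∀ x, av σ (Nn R (ky r r ∘ b)) (f x) = 0) : f = 0 := by
  let o : Fin r → ℤ := fun j => if t ≤ j.val then j.val else r + t - j.val
  refine inj_levi (σ := σ) (D := Dd R (ky r t ∘ b) (ky r r ∘ b)) (N' := Nn R (o ∘ b)) (H := H)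
    (Q := Par R (ky r t ∘ b)) lam f (fun g => ⟨fun h => ⟨rad_and h.1 (levi_rad.1 h.2) ?_,
      rad_mono (levi_rad.1 h.2) fun _ _ => le_of_eq⟩, fun h => ⟨rad_and h.1 h.2 ?_,
      levi_rad.2 (rad_and h.1 h.2 ?_)⟩⟩) (fun h hh => ?_) (fun x => ?_) fun F h1 h2 => ?_
  iterate 3
    intro s s' a a'
    have := (b s).2
    have := (b s').2
    simp only [ky, o, Function.comp] at a a' ⊢
    split_ifs at * <;> omega
  · obtain ⟨u, m, v, rfl, h1, h2, h3, a1, a2, a3⟩ := y.dec (ky r t) hh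
    refine ⟨u * m, v, rfl, mul_mem (rad_mono a1 fun _ _ => le_of_lt)
      (rad_mono (levi_rad.1 a2) fun _ _ => le_of_eq), rad_mono a3 fun s s' a => ?_, fun a =>
      Subtype.ext (rad_one a3 a fun s s' e => by simpa using e), y.triv (-ky r t) h3 a3,
      fun x => ?_⟩
    · have := (b s).2
      simp only [ky, o, Function.comp, Pi.neg_apply] at a ⊢
      split_ifs <;> omega
    · rw [map_mul, y.triv _ h1 a1, one_mul, Subgroup.coe_mul, map_mul, Module.End.mul_apply,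
        ← hf.1 m ⟨h2, a2⟩, hf.2 _ a1]
  · rw [← h0 x, av_factor (o := ky r t ∘ b) σ,
      av_id (N := Nn R (ky r t ∘ b)) fun g hg => hf.2 g hg x]
    all_goals
      intro s s' a
      have := (b s).2
      have := (b s').2
      simp only [ky, Function.comp] at a ⊢
      omega
  · refine (y.hc o).2.2 _ _ F h1 fun x => ?_
    have h3 : F x = (-(Fintype.card (Nn R (o ∘ b)) : ℂ)⁻¹) •
        ∑ g : Nn R (o ∘ b), (rt (GL I R) V g (F x) - F x) := by
      rw [sum_sub_distrib, smul_sub, neg_smul, ← av_apply, h2, sum_const, card_univ,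
        ← Nat.cast_smul_eq_nsmul ℂ, neg_smul, inv_smul_smul₀ card_ne]
      simp
    rw [h3]
    exact Submodule.smul_mem _ _ (Submodule.sum_mem _ fun g _ =>
      Submodule.subset_span ⟨g, F x, g.2, rfl⟩)

variable {ζ : Rˣ} (hz : ∀ j, zb b ζ j ∈ J) {e : ℂ}
  (he : ∀ v, Fixed b σ v → ∑ j, σ (zb b ζ j) v = e • v)
include hz he

lemma scal (t : ℕ) (c : GL I R) : ∑ j, tau H lam σ (ky r t ∘ b) (c * zb b ζ j) =
    e * tau H lam σ (ky r t ∘ b) c := by
  have h1 : ∀ f ∈ XX H lam σ (ky r t ∘ b), ∑ j, lr (σ (zb b ζ j)) 1 f - e • f = 0 := fun f hf => by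
    refine y.inj t (sub_mem (Submodule.sum_mem _ fun j _ => ⟨fun h hh x => ?_, fun g hg x => ?_⟩)
      (Submodule.smul_mem _ _ hf)) fun x => ?_
    · let z : J := ⟨_, hz j⟩
      show σ z (f (lam h x)) = σ h (σ z (f x))
      rw [← y.lam_conj (c := z) rfl (fun s t a => by rw [a]) hh.1, hf.1 _ ⟨y.conj z hh.1,
        mul_mem (mul_mem (inv_mem (dg_levi (c := z) rfl)) hh.2) (dg_levi (c := z) rfl)⟩]
      simp [← Module.End.mul_apply, ← map_mul, ← mul_assoc]
    · show σ g (σ (zb b ζ j) (f x)) = σ (zb b ζ j) (f x)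
      conv_rhs => rw [← hf.2 _ (levi_conj (inv_mem (dg_levi (c := zb b ζ j) rfl)) hg) x]
      simp [← Module.End.mul_apply, ← map_mul, ← mul_assoc]
    · simp only [LinearMap.sub_apply, LinearMap.sum_apply, LinearMap.smul_apply, map_sub, map_sum,
        map_smul, lr_apply, Module.End.one_apply]
      rw [← he _ fun g hg => av_fix (rad_mono hg fun s s' a => by
        have := (b s').2
        simp only [ky, Function.comp, Fin.lt_def] at a ⊢
        omega) _, sub_eq_zero]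
      · exact sum_congr rfl fun j _ =>
          (av_comm (levi_nrm (fun _ _ => id) (dg_levi (c := zb b ζ j) rfl)) _).symm
  simp only [tau, ← map_sum, ← smul_eq_mul, ← map_smul]
  refine congrArg _ (LinearMap.ext fun f => LinearMap.ext fun x => ?_)
  have := congrArg (fun g => σ c (g x)) (sub_eq_zero.1 (h1 _ ((isProj H lam σ _).map_mem f)))
  simpa [lr_apply] using this

lemma dim_step (hζ : IsUnit (ζ.val ^ 2 - 1)) (t : Fin r) :
    finrank ℂ (XX H lam σ (ky r t ∘ b)) = finrank ℂ (XX H lam σ (ky r (t + 1) ∘ b)) := by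
  have u1 : IsUnit (ζ⁻¹.val - ζ.val) := by
    have := (hζ.mul ζ⁻¹.isUnit).neg
    rwa [show -((ζ.val ^ 2 - 1) * ζ⁻¹.val) = ζ⁻¹.val - ζ.val * (ζ.val * ζ⁻¹.val) by ring,
      ζ.mul_inv, mul_one] at this
  have u2 : IsUnit (ζ⁻¹.val - 1) := isUnit_of_mul_isUnit_left (y := 1 + ζ.val) (by
    rwa [show (ζ⁻¹.val - 1) * (1 + ζ.val) = ζ⁻¹.val - ζ.val + (ζ.val * ζ⁻¹.val - 1) by ring,
      ζ.mul_inv, sub_self, add_zero])
  have h1 := y.step (σ := σ) t (c := ⟨_, inv_mem (hz t)⟩) rfl (fun s s' a => by rw [a])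
    fun s s' a a' => by rwa [if_pos a, if_neg a']
  have h2 : ∀ j ∈ univ.erase t, tau H lam σ (ky r t ∘ b) ((zb b ζ t)⁻¹ * zb b ζ j) =
      tau H lam σ (ky r (t + 1) ∘ b) ((zb b ζ t)⁻¹ * zb b ζ j) := fun j hj =>
    y.step t (c := ⟨_, mul_mem (inv_mem (hz t)) (hz j)⟩) (Matrix.diagonal_mul_diagonal _ _)
      (fun s s' a => by rw [a]) fun s s' a a' => by
        rw [if_pos a, if_neg a', if_neg (a ▸ (ne_of_mem_erase hj).symm), mul_one, one_mul]
        split_ifs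
        exacts [u1, u2]
  have h3 := y.scal hz he t (zb b ζ t)⁻¹
  have h4 := y.scal hz he (t + 1) (zb b ζ t)⁻¹
  rw [← add_sum_erase _ _ (mem_univ t), inv_mul_cancel, tau_one] at h3 h4
  rw [sum_congr rfl h2, h1, ← h4, add_left_inj] at h3
  exact_mod_cast h3

theorem main (hζ : IsUnit (ζ.val ^ 2 - 1)) (hJ : ∀ g ∈ J, ∃ m ∈ J, m ∈ Levi R b ∧ m⁻¹ * g ∈ H) :
    finrank ℂ (HomF ⊤ (fun _ _ => False) lam σ) =
      finrank ℂ (HomF (Levi R b) (fun s t => b s < b t) lam σ) := by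
  have h1 : ∀ t ≤ r, finrank ℂ (XX H lam σ (ky r 0 ∘ b)) =
      finrank ℂ (XX H lam σ (ky r t ∘ b)) := fun t ht => by
    induction t with
    | zero => rfl
    | succ t ih => rw [ih (by omega)]; exact y.dim_step hz he hζ ⟨t, ht⟩
  have k1 : ∀ s s', (ky r r ∘ b) s < (ky r r ∘ b) s' ↔ b s < b s' := fun s s' => by
    have := (b s).2
    have := (b s').2
    simp only [ky, Function.comp, Fin.lt_def]
    omega
  have k2 : ∀ s s', (ky r r ∘ b) s = (ky r r ∘ b) s' ↔ b s = b s' := fun s s' => by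
    have := (b s).2
    have := (b s').2
    simp only [ky, Function.comp, Fin.ext_iff]
    omega
  have k3 : ∀ f, f ∈ XX H lam σ (ky r 0 ∘ b) ↔
      ∀ h : J, h.val ∈ H → ∀ x, f (lam h x) = σ h (f x) := fun f =>
    ⟨fun hf h hh => hf.1 h ⟨hh, fun s s' a => absurd (by simp [ky]) a⟩, fun hf =>
      ⟨fun h hh => hf h hh.1, fun g hg x => by
        rw [rad_one hg hg fun s s' a => absurd a (by simp [ky]), map_one, Module.End.one_apply]⟩⟩
  have k4 : ∀ m ∈ Levi R b, ∀ v, σ m (av σ (Nn R (ky r r ∘ b)) v) =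
      av σ (Nn R (ky r r ∘ b)) (σ m v) := fun m hm =>
    av_comm (levi_nrm (fun s s' => (k2 s s').2) hm)
  let E : Module.End ℂ (U →ₗ[ℂ] V) := lr (av σ (Nn R (ky r r ∘ b))) 1
  have i1 : ∀ f ∈ XX H lam σ (ky r 0 ∘ b), E f = 0 → f = 0 := fun f hf a =>
    y.inj 0 hf (LinearMap.congr_fun a)
  let E1 : XX H lam σ (ky r 0 ∘ b) →ₗ[ℂ] XX H lam σ (ky r r ∘ b) := E.restrict fun f hf =>
    ⟨fun h hh x => (congrArg (av σ _) ((k3 f).1 hf h hh.1 x)).trans
      (av_comm (levi_nrm (fun _ _ => id) hh.2) _).symm, fun g hg x => av_fix hg _⟩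
  have s1 : Function.Surjective E1 :=
    (LinearMap.injective_iff_surjective_of_finrank_eq_finrank (h1 r le_rfl)).1
      ((injective_iff_map_eq_zero _).2 fun f a => Subtype.ext (i1 _ f.2 (congrArg Subtype.val a)))
  let E2 : HomF ⊤ (fun _ _ => False) lam σ →ₗ[ℂ] HomF (Levi R b) (fun s t => b s < b t) lam σ :=
    E.restrict fun f hf => ⟨fun h hh x => (congrArg (av σ _) (hf.1 h trivial x)).trans
      (k4 _ hh _).symm, fun g hg x => av_fix (rad_mono hg fun s s' => (k1 s s').2) _⟩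
  refine (LinearEquiv.ofBijective E2 ⟨(injective_iff_map_eq_zero _).2 fun f a => Subtype.ext
    (i1 _ ((k3 _).2 fun h _ => f.2.1 h trivial) (congrArg Subtype.val a)), fun g => ?_⟩).finrank_eq
  obtain ⟨⟨f, hf⟩, a⟩ := s1 ⟨g, fun h hh => g.2.1 h fun s s' a => hh.2 s s' fun a' =>
    a ((k2 s s').1 a'), fun n hn => g.2.2 n (rad_mono hn fun s s' => (k1 s s').1)⟩
  have a1 : ∀ x, av σ (Nn R (ky r r ∘ b)) (f x) = g.val x :=
    LinearMap.congr_fun (congrArg Subtype.val a)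
  have a2 : ∀ m : J, m.val ∈ Levi R b → ∀ x, f (lam m x) = σ m (f x) := fun m hm x => by
    have a3 : lr (σ m) (lam m⁻¹) f - f = 0 := i1 _ (sub_mem ((k3 _).2 fun h hh x => by
      have := (k3 f).1 hf (m⁻¹ * h * m) (y.conj m hh) (lam m⁻¹ x)
      rw [lr_apply, lr_apply, ← Module.End.mul_apply (lam _), ← map_mul,
        show m⁻¹ * h = m⁻¹ * h * m * m⁻¹ by group, map_mul lam, Module.End.mul_apply, this]
      simp [← Module.End.mul_apply, ← map_mul, ← mul_assoc]) hf) (LinearMap.ext fun x => by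
        show av σ _ (σ m (f (lam m⁻¹ x)) - f x) = 0
        rw [map_sub, ← k4 _ hm, a1, a1, ← g.2.1 m hm, ← Module.End.mul_apply, ← map_mul,
          mul_inv_cancel, map_one, Module.End.one_apply, sub_self])
    have := LinearMap.congr_fun (sub_eq_zero.1 a3) (lam m x)
    simpa [lr_apply, ← Module.End.mul_apply (lam _), ← map_mul] using this.symm
  refine ⟨⟨f, fun h _ x => ?_, fun n hn x => ?_⟩, Subtype.ext (LinearMap.ext a1)⟩
  · obtain ⟨m, m1, m2, m3⟩ := hJ h h.2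
    have := (k3 f).1 hf ((⟨m, m1⟩ : J)⁻¹ * h) m3 x
    rw [← mul_inv_cancel_left (⟨m, m1⟩ : J) h, map_mul, Module.End.mul_apply, a2 _ m2, this,
      Subgroup.coe_mul _ ⟨m, m1⟩, map_mul, Module.End.mul_apply]
  · rw [rad_one hn hn fun _ _ => False.elim, map_one, Module.End.one_apply]

theorem main' (hb : Function.Surjective b) (hζ : IsUnit (ζ.val ^ 2 - 1))
    (hJ : ∀ g ∈ J, ∃ m ∈ J, m ∈ Levi R b ∧ m⁻¹ * g ∈ H) {w : Equiv.Perm I} (hw : Blk b w) :
    finrank ℂ (HomF ⊤ (fun _ _ => False) lam σ) =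
      finrank ℂ (HomF (Levi R b) (fun s t => b (w s) < b (w t)) lam σ) := by
  obtain ⟨π, hπ⟩ := hw.perm hb
  have h1 : Levi R b = Levi R (b ∘ w) :=
    Subgroup.ext fun g => forall₂_congr fun s t => imp_congr_left (not_congr (hw s t).symm)
  have h2 : ∀ j, zb (b ∘ w) ζ j = zb b ζ (π.symm j) := fun j => Units.ext (congrArg Matrix.diagonal
    (funext fun s => if_congr (by rw [Function.comp, hπ, Equiv.eq_symm_apply]) rfl rfl))
  have h3 : ∀ j, zb (b ∘ w) ζ j = (pm R w)⁻¹ * zb b ζ j * pm R w := fun j =>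
    Units.ext (Matrix.ext fun s t => by rw [pm_conj]; simp [zb, Matrix.diagonal_apply])
  rw [h1] at hJ ⊢
  refine main (b := b ∘ w) ⟨y.hp, y.hR, y.hH, y.hN, y.hP, fun o => ?_⟩ (fun j => h2 j ▸ hz _)
    (e := e) (fun v hv => ?_) hζ hJ
  · have := y.hc (o ∘ π)
    rwa [show b ∘ w = π ∘ b from funext hπ]
  · have := he (σ (pm R w) v) fun g hg => by
      conv_rhs => rw [← hv ((pm R w)⁻¹ * g * pm R w) fun s t a => by
        rw [pm_conj, hg _ _ a]; simp [Matrix.one_apply]]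
      simp [← Module.End.mul_apply, ← map_mul, ← mul_assoc]
    simpa [h3, ← Module.End.mul_apply, ← map_mul, ← mul_assoc] using congrArg (σ (pm R w)⁻¹) this

end Hyp

end Pool.Agent.P.MP_7cb106_nt.Cv
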