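import Pool.Agent.P.MP_7cb106_nt.Ty.Jac
import Pool.Agent.P.MP_7cb106_nt.Cv.Defs
import Pool.Agent.P.MP_7cb106_nt.Cv.Grp

/-! Parabolic subgroups over a finite ring. -/

set_option autoImplicit false
set_option linter.unusedSectionVars false

namespace Pool.Agent.P.MP_7cb106_nt.Cv

open Module Finset Pool.Agent.P.MP_7cb106_nt.Ty
open scoped Classical

variable {R I B : Type} [CommRing R] [Fintype I] [DecidableEq I] [Fintype (GL I R)]
  {S S' S'' : I → I → Prop} {g c : GL I R} {o : I → ℤ} {d : I → R} {b : I → B}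

lemma rad_and (h : Rad S g) (h' : Rad S' g) (hS : ∀ s t, S s t → S' s t → S'' s t) : Rad S'' g :=
  fun s t e => (em (S s t)).elim (fun a => h' s t fun a' => e (hS s t a a')) (h s t)

lemma rad_mono (h : Rad S g) (hS : ∀ s t, S s t → S' s t) : Rad S' g :=
  rad_and h h fun s t a _ => hS s t a

lemma rad_one (h : Rad S g) (h' : Rad S' g) (hS : ∀ s t, S s t → ¬ S' s t) : g = 1 :=
  Units.ext (Matrix.ext fun s t => rad_and h h' hS s t id)

lemma levi_rad : g ∈ Levi R b ↔ Rad (fun s t => b s = b t) g :=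
  forall₃_congr fun s t e => by rw [inD_one s t e]

variable (R) in
/-- The unipotent radical. -/
def Nn (o : I → ℤ) : Subgroup (GL I R) :=
  radG R (S := fun s t => o s < o t) fun _ _ _ => lt_trans

variable (R) in
/-- The parabolic subgroup. -/
def Par (o : I → ℤ) : Subgroup (GL I R) :=
  radG R (S := fun s t => o s ≤ o t) fun _ _ _ => le_trans

variable (R) in
/-- The part of the radical for `o'` inside the Levi subgroup for `o`. -/
def Dd (o o' : I → ℤ) : Subgroup (GL I R) := Nn R o' ⊓ Levi R o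

lemma levi_nrm (h : ∀ s t, b s = b t → o s = o t) :
    Levi R b ≤ Subgroup.normalizer (Nn R o : Set (GL I R)) :=
  Subgroup.le_normalizer_iff.2 fun y hy g hg => by
    have := Rad.conj (b := b) (S := fun s t => o s < o t)
      (fun _ _ _ _ e e' a => h _ _ e ▸ h _ _ e' ▸ a) hg ⟨y⁻¹, inv_mem hy⟩
    rwa [inv_inv] at this

lemma levi_conj (hc : c ∈ Levi R o) (hg : g ∈ Nn R o) : c * g * c⁻¹ ∈ Nn R o :=
  Subgroup.le_normalizer_iff.1 (levi_nrm fun _ _ => id) c hc g hg

lemma factor {o' : I → ℤ} (h : ∀ s t, o' s < o' t → o s ≤ o t) (hg : g ∈ Nn R o') :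
    ∃ l ∈ Dd R o o', l⁻¹ * g ∈ Nn R o := by
  let P : Matrix I I R → Matrix I I R := fun A => Matrix.of fun s t => if o s = o t then A s t else 0
  have hq : ∀ g ∈ Nn R o', ∀ s t, ¬ o s ≤ o t → g.val s t = 0 := fun g hg s t e => by
    rw [hg s t fun a => e (h s t a), Matrix.one_apply_ne fun a => e (by rw [a])]
  have hP : ∀ g ∈ Nn R o', P g.val * P g⁻¹.val = 1 := fun g hg => by
    ext s t
    rw [Matrix.mul_apply]
    by_cases e : o s = o t
    · rw [← g.mul_inv, Matrix.mul_apply]
      refine sum_congr rfl fun u _ => ?_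
      by_cases e' : o s = o u
      · simp [P, e', e'.symm.trans e]
      · rcases le_total (o s) (o u) with a | a
        · have := hq _ (inv_mem hg) u t (by omega)
          simp only [P, Matrix.of_apply, if_neg e', zero_mul]
          rw [show g⁻¹.val u t = 0 from this, mul_zero]
        · simp only [P, Matrix.of_apply, if_neg e', zero_mul]
          rw [hq g hg s u (by omega), zero_mul]
    · rw [Matrix.one_apply_ne fun a => e (by rw [a])]
      refine sum_eq_zero fun u _ => ?_
      by_cases e' : o s = o u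
      · simp [P, show ¬ o u = o t from e' ▸ e]
      · simp [P, e']
  let l : GL I R := ⟨P g.val, P g⁻¹.val, hP g hg, by simpa using hP _ (inv_mem hg)⟩
  refine ⟨l, ⟨fun s t e => ?_, fun s t e => if_neg e⟩, rad_iff.2 ?_⟩
  · show (if o s = o t then g.val s t else 0) = _
    split_ifs with a
    · exact hg s t e
    · rw [Matrix.one_apply_ne fun a' => a (by rw [a'])]
  · have h1 : Supp (fun s t => o s < o t) (g.val - l.val) := fun s t e => by
      show g.val s t - (if o s = o t then g.val s t else 0) = 0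
      split_ifs with a
      · exact sub_self _
      · rw [hq g hg s t (by omega), sub_self]
    have h2 : Supp (fun s t => o s = o t) l⁻¹.val := fun s t e => if_neg e
    convert h2.mul h1 (S'' := fun s t => o s < o t) fun s u t a a' => a ▸ a' using 1
    rw [mul_sub, l.inv_mul, Units.val_mul]

lemma av_factor {V : Type} [AddCommGroup V] [Module ℂ V] (σ : Representation ℂ (GL I R) V)
    {o' : I → ℤ} (h : ∀ s t, o' s < o' t → o s ≤ o t) (h' : ∀ s t, o s < o t → o' s < o' t)
    (v : V) : av σ (Nn R o') v = av σ (Dd R o o') (av σ (Nn R o) v) :=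
  av_mul inf_le_left (fun _ hg => rad_mono hg h') (inf_le_right.trans (levi_nrm fun _ _ => id))
    (fun _ => factor h) v

lemma pgroup {p : ℕ} (hR : IsNilpotent (p : R)) (h : ∀ s u t, o s < o u → ¬ o u < o t) :
    IsPGroup p (Nn R o) := fun g => by
  obtain ⟨k, hk⟩ := hR
  have h1 := rad_iff.1 g.2
  have h2 : (g.val.val - 1) * (g.val.val - 1) = 0 :=
    Matrix.ext fun s t => h1.mul h1 (S'' := fun _ _ => False) h s t id
  have h3 : ∀ m : ℕ, g.val.val ^ m = 1 + (m : R) • (g.val.val - 1) := fun m => by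
    induction m with
    | zero => simp
    | succ m ih =>
      rw [pow_succ, ih, Nat.cast_succ, add_smul, one_smul, add_mul, smul_mul_assoc,
        show (g.val.val - 1) * g.val.val = g.val.val - 1 by
          rw [← sub_eq_zero, ← h2, mul_sub, mul_one], one_mul]
      abel
  refine ⟨k, Subtype.ext (Units.ext ?_)⟩
  rw [Subgroup.coe_pow, Units.val_pow_eq_pow_val, h3, Nat.cast_pow, hk, zero_smul, add_zero]
  rfl

lemma dg_levi (hc : c.val = Matrix.diagonal d) : c ∈ Levi R b := fun s t e => by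
  rw [hc, Matrix.diagonal_apply_ne _ fun a => e (by rw [a])]

lemma dg_cm (hc : c.val = Matrix.diagonal d) (hd : ∀ s t, b s = b t → d s = d t)
    (hg : g ∈ Levi R b) : c * g = g * c := Units.ext <| Matrix.ext fun s t => by
  rw [Units.val_mul, Units.val_mul, hc, Matrix.diagonal_mul, Matrix.mul_diagonal]
  by_cases e : b s = b t
  · rw [hd s t e, mul_comm]
  · rw [hg s t e, mul_zero, zero_mul]

lemma dg_fpf (hc : c.val = Matrix.diagonal d) (hd : ∀ s t, S s t → IsUnit (d s - d t))
    (hg : Rad S g) (e : c * g = g * c) : g = 1 := Units.ext <| Matrix.ext fun s t => by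
  by_cases a : S s t
  · have h1 : (c * g).val s t = (g * c).val s t := by rw [e]
    rw [Units.val_mul, Units.val_mul, hc, Matrix.diagonal_mul, Matrix.mul_diagonal] at h1
    refine (hd s t a).mul_left_cancel ?_
    rcases eq_or_ne s t with rfl | n
    · simp
    · rw [Units.val_one, Matrix.one_apply_ne n]
      linear_combination h1
  · exact hg s t a

variable {p : ℕ} {H : Subgroup (GL I R)}

lemma fpf_two (hp : p.Prime) (hR : IsNilpotent (p : R)) (hP : IsPGroup p H)
    (ho : ∀ s u t, o s < o u → ¬ o u < o t) (hc : c.val = Matrix.diagonal d)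
    (hd : ∀ s t, o s < o t → IsUnit (d s - d t)) (hn : c ∈ Subgroup.normalizer (H : Set (GL I R)))
    {h a : GL I R} (hh : h ∈ H) (hl : h ∈ Levi R o) (ha : a ∈ Nn R o)
    (e : c * h * a = a * (c * h)) : a = 1 := by
  have h1 : H ⊓ Levi R o ≤ Subgroup.normalizer (Nn R o : Set (GL I R)) :=
    inf_le_right.trans (levi_nrm fun _ _ => id)
  refine fpf hp (hP.to_inf_left.to_sup_of_normal_right' (pgroup hR ho) h1) le_sup_right ?_
    (fun a => levi_conj (dg_levi hc)) (Subgroup.le_normalizer_iff.1 (sup_le h1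
      Subgroup.le_normalizer)) (fun a ha => dg_fpf hc hd ha) (Subgroup.mem_sup_left ⟨hh, hl⟩) ha e
  exact Subgroup.normalizer_inf_normalizer_le_normalizer_sup _ _
    ⟨Subgroup.inf_normalizer_le_normalizer_inf ⟨hn, Subgroup.le_normalizer (dg_levi hc)⟩,
      levi_nrm (b := o) (fun _ _ => id) (dg_levi hc)⟩

/-- An element that conjugates `x'` to `x` lies in the Levi subgroup. -/
lemma uniq {x x' u m v : GL I R} (hx : x ∈ Levi R o) (hx' : x' ∈ Levi R o) (hu : u ∈ Nn R o)
    (hm : m ∈ Levi R o) (hv : v ∈ Nn R (-o)) (e : x * (u * m * v) = u * m * v * x') :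
    x * u = u * x ∧ x' * v = v * x' := by
  have l1 : ∀ y ∈ Levi R o, y ∈ Par R (-o) := fun y hy =>
    rad_mono (levi_rad.1 hy) fun s t a => by simp [a]
  have l2 : ∀ y ∈ Nn R (-o), y ∈ Par R (-o) := fun y hy => rad_mono hy fun s t a => a.le
  have e1 : u⁻¹ * (x * u * x⁻¹) = m * v * x' * (x * m * v)⁻¹ := by
    calc _ = u⁻¹ * (x * (u * m * v)) * (x * m * v)⁻¹ := by group
      _ = _ := by rw [e]; group
  have h1 : u⁻¹ * (x * u * x⁻¹) = 1 := rad_one (mul_mem (inv_mem hu) (levi_conj hx hu))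
    (show _ ∈ Par R (-o) from e1 ▸ mul_mem (mul_mem (mul_mem (l1 _ hm) (l2 _ hv)) (l1 _ hx'))
      (inv_mem (mul_mem (mul_mem (l1 _ hx) (l1 _ hm)) (l2 _ hv)))) fun s t a => by simpa using a
  have e2 : x'⁻¹ * v * x'⁻¹⁻¹ * v⁻¹ = (m * x')⁻¹ * (x * m) := by
    calc _ = (m * x')⁻¹ * (m * v * x' * (x * m * v)⁻¹) * (x * m) := by group
      _ = _ := by rw [← e1, h1, mul_one]
  have h2 : x'⁻¹ * v * x'⁻¹⁻¹ * v⁻¹ = 1 := rad_one (mul_mem (Subgroup.le_normalizer_iff.1
    (levi_nrm (b := o) fun s t a => by simp [a]) _ (inv_mem hx') _ hv) (inv_mem hv))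
    (levi_rad.1 (e2 ▸ mul_mem (inv_mem (mul_mem hm hx')) (mul_mem hx hm))) fun s t a a' => by
      simp [a'] at a
  constructor
  · calc _ = u * (u⁻¹ * (x * u * x⁻¹)) * x := by group
      _ = _ := by rw [h1, mul_one]
  · calc _ = x' * 1 * v := by group
      _ = _ := by rw [← h2]; group

end Pool.Agent.P.MP_7cb106_nt.Cv
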